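import Pool.Agent.Lib.MP_e4697a_lc.N1.Main

/-!
Every NSOP_1 theory is G-compact.

The theory is the complete theory of the big model `C`; small means of size `< κ`.
-/

set_option autoImplicit false

namespace Pool.Agent.Results.MP_e4697a_lc.NSOP1GCompact

open FirstOrder Pool.Agent.Lib.MP_e4697a_lc

theorem result (L : FirstOrder.Language.{0, 0}) (C : Type 1) [L.Structure C] [Nonempty C]
    (κ : Cardinal.{1}) (hκ : κ.IsStrongLimit) (hℵ : Cardinal.aleph0 < κ)
    (hL : Cardinal.lift.{1} L.card < κ) (hsat : Saturated L C κ)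
    (hhom : StronglyHomogeneous L C κ) (hN : ¬ HasSOP1 L C) :
    GCompact L C κ ∧ ∀ I : Type 1, Cardinal.mk I < κ →
      ∃ E : Setoid (I → C), IsLascar L C κ E ∧ IsKimPillay L C κ E := by
  have hm : N1.Mon L C κ := ⟨hκ, hℵ, hL, hsat, hhom, inferInstance⟩
  exact ⟨fun I hI EL EKP h1 h2 =>
    (h1.unique (N1.main hm hN hI).1).trans ((N1.main hm hN hI).2.unique h2),
    fun I hI => ⟨_, N1.main hm hN hI⟩⟩

end Pool.Agent.Results.MP_e4697a_lc.NSOP1GCompact
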