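import Pool.Agent.Lib.MP_e4697a_lc.NSOP

/-!
A complete NSOP theory that is not G-compact.

The monster model carries binary labels: residues of a cocycle with values in the product of the
groups Z/2^n whose holonomy on triangles is a bounded integer, and digits that describe a
descending sequence of quasi-metrics linked by sawtooth functions.
-/

set_option autoImplicit false

namespace Pool.Agent.Results.MP_e4697a_lc.NSOPNotGCompact

open FirstOrder Pool.Agent.Lib.MP_e4697a_lc

theorem result :
    ∃ (L : FirstOrder.Language.{0, 0}) (T : L.Theory) (C : Type 1) (_ : L.Structure C)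
      (κ : Cardinal.{1}),
      L.card ≤ Cardinal.aleph0 ∧ T.IsComplete ∧ FirstOrder.Language.Theory.Model C T ∧
        IsMonster L C κ ∧ ¬ HasSOP L C ∧ ¬ GCompact L C κ := by
  refine ⟨LL, LL.completeTheory OO, OO, strLL, Cardinal.univ.{0, 1}, ?_,
    FirstOrder.Language.completeTheory.isComplete LL OO, inferInstance,
    ⟨Cardinal.IsInaccessible.univ, Cardinal.lift_lt_univ _, Cardinal.mk_ordinal, saturated,
      homogeneous⟩, not_sop, not_gcompact⟩
  have h1 : Countable (Σ l, LL.Functions l) := inferInstanceAs (Countable (Σ _ : ℕ, Empty))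
  have h2 : Countable (Σ l, LL.Relations l) :=
    Function.Surjective.countable (f := fun x : ℕ × ℤ × ℤ => ⟨2, Rl.mk x.1 x.2.1 x.2.2⟩) (by
      rintro ⟨_, ⟨n, r, v⟩⟩
      exact ⟨(n, r, v), rfl⟩)
  have h3 : Countable LL.Symbols := inferInstanceAs (Countable (_ ⊕ _))
  exact Cardinal.mk_le_aleph0

end Pool.Agent.Results.MP_e4697a_lc.NSOPNotGCompact
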